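import Pool.Agent.Helper7.CV.Main
import Pool.Agent.Helper21.CP.Gen
import Pool.Graph.R_pool_sql_team_seeded_63374d34.N110.Can

/-!
The conjecture of Campana and Peternell for divisors `A` with `κ(A) ≥ n - 1`.

Let `(X, Δ)` be a pair of a normal projective variety of dimension `n ≥ 1` and any effective
`ℚ`-divisor, and `A` a `ℚ`-divisor with `κ(A) ≥ n - 1` such that `K_X + Δ - A` is pseudo-effective in
the strong sense. Then `κ(K_X + Δ) ≥ κ(A)`.

Proof. The largest fibration `X ⇢ Z` below `K_X + Δ` has `dim Z ≥ n - 1`. If `dim Z = n` then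
`K_X + Δ` is big. If `dim Z = n - 1` the generic fibre is a regular curve `C` over the function field
`F` of `Z`, and the restriction of `K_X + Δ` has degree zero: it is at least `0` since `K_X + Δ` is
pseudo-effective, and at most `0` since `Z` is the largest base (Riemann's theorem). The restriction is
`K_C + Δ_C` with `Δ_C` effective, so it is torsion (genus inequality `2 g - 2 ≥ -2` and Riemann-Roch
inequality for a function field of one variable of characteristic zero), and the numerical dimension is
zero on the generic fibre. So the sections on `X` can be constructed from those on the base.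
-/

set_option autoImplicit false

open FF Pool.Agent.W602.GT Pool.Agent.Y172 Pool.Agent.R887 Pool.Agent.N110 Pool.Agent.NH31
open Pool.Agent.Helper7.CP

namespace Pool.Agent.Results.MP_370cf3_ag.CurveFibres

section

variable {K : Type} [Field K] [Algebra ℂ K] {N : ℕ}

/-- `A` is a `ℚ`-divisor: almost all coefficients are zero. -/
def IsDivisor (y : Fin (N + 1) → K) (A : Place ℂ K → ℚ) : Prop :=
  {P | IsPrimeDivisor y P ∧ A P ≠ 0}.Finite

/-- `K_X + D` is pseudo-effective in the strong sense of Nakayama: there is an effective divisor `H`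
such that `m (K_X + D) + H` has a nonzero section for all `m ≥ 1`. -/
def StronglyPseudoEffective (y : Fin (N + 1) → K) (n : ℕ) (D : Place ℂ K → ℚ) : Prop :=
  ∃ H, Effective y H ∧ ∀ m : ℕ, 1 ≤ m →
    ∃ η : (Fin n → Derivation ℂ K K) → K, IsSection y n m (m • D + H) η ∧ η ≠ 0

end

/-- **Divisors with `κ(A) ≥ n - 1`.** Let `X` be a normal projective variety of dimension `n ≥ 1` with
generic point `y`, let `Δ` be an effective `ℚ`-divisor and `A` a `ℚ`-divisor on `X` with
`κ(A) ≥ n - 1`, and suppose that `K_X + Δ - A` is pseudo-effective in the strong sense. Then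
`κ(K_X + Δ) ≥ κ(A)`. -/
theorem result {K : Type} [Field K] [Algebra ℂ K] {N n : ℕ} {y : Fin (N + 1) → K}
    (hy : NormalModel y) (hn : Algebra.trdeg ℂ K = n) (hn0 : 1 ≤ n) {Δ A : Place ℂ K → ℚ}
    (hΔ : Effective y Δ) (hA : IsDivisor y A) (hI : IitakaGe y A (n - 1))
    (hps : StronglyPseudoEffective y n (Δ - A)) :
    ∀ l, IitakaGe y A l → KappaGe y n Δ l := by
  intro l hl
  obtain ⟨m, rfl⟩ : ∃ m, n = m + 1 := ⟨n - 1, by omega⟩
  obtain ⟨H, hH, hstr⟩ := hps
  refine Pool.Agent.Helper7.CV.kappa_curve ?_ hy hn hΔ hA hI hH hstr hl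
  intro k K' _ _ _ _ _ hk x hx E hE W hW D hD h0
  exact Pool.Agent.Helper21.CP.curve_triv hk hx E hE hW hD h0

end Pool.Agent.Results.MP_370cf3_ag.CurveFibres
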