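import Pool.Agent.Helper7.CP.Num
import Pool.Graph.R_pool_sql_team_seeded_63374d34.N110.IM.Img
import Pool.Graph.R_pool_sql_team_seeded_63374d34.N110.IM.Defs
import Pool.Graph.R_pool_sql_team_seeded_63374d34.N110.JPlateau
import Pool.Graph.R_pool_sql_team_seeded_63374d34.N110.QPlateau
import Pool.Graph.R_pool_sql_team_seeded_63374d34.N110.Can
import Pool.Graph.R_pool_sql_team_seeded_63374d34.N110.CanS

/-!
The conjecture of Campana and Peternell and dynamical degrees: pairs which are dominated by a pair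
with self-maps whose greatest dynamical degree is not attained at several consecutive indices.
-/

set_option autoImplicit false

open FF Pool.Agent.W602.GT Pool.Agent.Y172 Pool.Agent.R887 Pool.Agent.N110

namespace Pool.Agent.Results.MP_370cf3_ag.DynamicalDegrees

open scoped ENNReal in
/-- The greatest of the numbers `d 0, ..., d n` is not attained at `ν + 1` consecutive indices. -/
def NotAttained (d : ℕ → ℝ≥0∞) (n ν : ℕ) : Prop :=
  ∀ j, j + ν ≤ n → ∃ a ≤ ν, ∃ p ≤ n, d (j + a) < d p

/-- There is a set `S` of birational self-maps `f` of `X'` of bounded degrees, given by the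
automorphisms `φ = f^*` of the function field, such that the greatest joint dynamical degree of `S`
is not attained at `ν + 1` consecutive indices, and either `f^* (K_X' + Δ')` and
`(f⁻¹)^* (K_X' + Δ')` are at most `K_X' + Δ'` over the prime divisors of `X'`, or `Δ' = 0` and `X'`
has canonical singularities (for instance, `X'` is smooth). -/
def HasBirationalMaps {K' : Type} [Field K'] [Algebra ℂ K'] {N' : ℕ} (y' : Fin (N' + 1) → K')
    (n : ℕ) (Δ' : Place ℂ K' → ℚ) (ν : ℕ) : Prop :=
  ∃ (S : Set (K' ≃ₐ[ℂ] K')) (C : ℕ), (∀ φ ∈ S, mixedDegree φ y' n 1 ≤ C) ∧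
    ((∀ φ ∈ S, PullLe φ y' n Δ' ∧ PullLe φ.symm y' n Δ') ∨ (Δ' = 0 ∧ Canonical y' n)) ∧
    NotAttained (jointDegree S y' n) n ν

/-- The divisor `K_X' + Δ'` is nef, and there is a set `S` of dominant rational self-maps `f` of
`X'`, invertible or not, of bounded degrees, given by the endomorphisms `φ = f^*` of the function
field, such that the greatest joint dynamical degree of `S` is not attained at `ν + 1` consecutive
indices, and either `f^* (K_X' + Δ')` is at most `K_X' + Δ'` over the prime divisors of `X'`, or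
`Δ' = 0` and `X'` has canonical singularities. -/
def HasSelfMaps {K' : Type} [Field K'] [Algebra ℂ K'] {N' : ℕ} (y' : Fin (N' + 1) → K')
    (n : ℕ) (Δ' : Place ℂ K' → ℚ) (ν : ℕ) : Prop :=
  LogNef y' n Δ' ∧ ∃ (S : Set (K' →ₐ[ℂ] K')) (C : ℕ), (∀ φ ∈ S, selfDegree φ y' n 1 ≤ C) ∧
    ((∀ φ ∈ S, SelfPullLe φ y' n Δ') ∨ (Δ' = 0 ∧ Canonical y' n)) ∧
    NotAttained (selfJointDegree S y' n) n ν

/-- **The conjecture of Campana and Peternell and dynamical degrees.** Let `X` be a normal
projective variety of dimension `n ≥ 1` with generic point `y`, `Δ` a `ℚ`-divisor on `X` (for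
instance `X` smooth and `Δ = 0`), and let `(X, Δ)` be dominated by `(X', Δ')`: there is a dominant
generically finite rational map `X' ⇢ X` such that the pull back of `K_X + Δ` is at most
`K_X' + Δ'` over the prime divisors of `X'` (for instance `X' = X`, `Δ' = Δ`, or `X'` and `X`
smooth, `Δ' = 0`, `Δ = 0` and any map, or `X` the quotient of `X'` by a finite group, with the
branch divisor). Let `X'` have birational self-maps, or, if `K_X' + Δ'` is nef, dominant rational
self-maps, which preserve `K_X' + Δ'` and whose greatest dynamical degree is not attained at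
`ν + 1` consecutive indices. They have nothing to do with `X`. Let `A` be a `ℚ`-divisor on `X` such
that `K_X + Δ - A` is pseudo-effective, for instance `K_X + Δ ~ A + B` with `A` effective and `B`
pseudo-effective. Then `κ(A) ≤ ν - 1`; if `κ(K_X + Δ) ≥ ν - 1` then `κ(K_X + Δ) ≥ κ(A)`; and if
`ν = 1` and the irregularity of `X` is zero then `κ(K_X + Δ) ≥ κ(A)` in all cases. -/
theorem result {K K' : Type} [Field K] [Algebra ℂ K] [Field K'] [Algebra ℂ K'] {N N' n : ℕ}
    {y : Fin (N + 1) → K} {y' : Fin (N' + 1) → K'} (hy : NormalModel y) (hy' : NormalModel y')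
    (hn : Algebra.trdeg ℂ K = n) (hn' : Algebra.trdeg ℂ K' = n) (hn0 : 0 < n)
    {Δ' : Place ℂ K' → ℚ} (hΔ' : {P | IsPrimeDivisor y' P ∧ Δ' P ≠ 0}.Finite) {ν : ℕ}
    (hν : ν ≤ n)
    (hS : HasBirationalMaps y' n Δ' ν ∨ HasSelfMaps y' n Δ' ν)
    {Δ : Place ℂ K → ℚ} (hΔ : {P | IsPrimeDivisor y P ∧ Δ P ≠ 0}.Finite) (π : K →ₐ[ℂ] K')
    (hπ : IM.ImagePullLe π y n Δ y' Δ') {A : Place ℂ K → ℚ}
    (hA : PseudoEffective y n (Δ - A)) {l : ℕ} (hl : IitakaGe y A l) :
    l < ν ∧ (KappaGe y n Δ (ν - 1) → KappaGe y n Δ l) ∧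
      (ν = 1 → IrregularityZero y → KappaGe y n Δ l) := by
  have key : NumDimLt y' n Δ' ν := by
    by_contra hnum
    rcases hS with ⟨S, C, hC, hS, hdeg⟩ | ⟨hnef, S, C, hC, hS, hdeg⟩
    · have hS' : ∀ φ ∈ S, PullLe φ y' n Δ' ∧ PullLe φ.symm y' n Δ' := by
        rcases hS with h | ⟨rfl, hcan'⟩
        · exact h
        · exact fun φ _ => ⟨pullLe_canonical hy' hn' hcan' φ, pullLe_canonical hy' hn' hcan' _⟩
      obtain ⟨j, hj, h4⟩ := jplateau hy' hn' hΔ' (fun φ hφ => (hS' φ hφ).1)
        (fun φ hφ => (hS' φ hφ).2) hC hν hnum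
      obtain ⟨a, ha, p, hp, hlt⟩ := hdeg j hj
      exact absurd hlt (not_lt.2 (h4 a ha p hp))
    · have hS' : ∀ φ ∈ S, SelfPullLe φ y' n Δ' := by
        rcases hS with h | ⟨rfl, hcan'⟩
        · exact h
        · exact fun φ _ => selfPullLe_canonical hy' hn' hcan' φ
      obtain ⟨j, hj, h4⟩ := splateau hy' hn' hΔ' hnef hS' hC hν hnum
      obtain ⟨a, ha, p, hp, hlt⟩ := hdeg j hj
      exact absurd hlt (not_lt.2 (h4 a ha p hp))
  exact Helper7.CP.cp_of_num hy hn hn0 hΔ hν (IM.numDimLt_img hy hy' hn hn' π hπ hν key) hA hl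

end Pool.Agent.Results.MP_370cf3_ag.DynamicalDegrees
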