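import Pool.Agent.Helper7.CP.Num
import Pool.Graph.R_pool_sql_team_seeded_63374d34.N110.IM.Img
import Pool.Graph.R_pool_sql_team_seeded_63374d34.N110.IM.Defs
import Pool.Graph.R_pool_sql_team_seeded_63374d34.N110.RK.Main
import Pool.Graph.R_pool_sql_team_seeded_63374d34.N110.RK.Stat
import Pool.Graph.R_pool_sql_team_seeded_63374d34.N110.PA.Main
import Pool.Graph.R_pool_sql_team_seeded_63374d34.N110.SE.Fin
import Pool.Graph.R_pool_sql_team_seeded_63374d34.N110.Can
import Pool.Graph.R_pool_sql_team_seeded_63374d34.N110.CanS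

/-!
The conjecture of Campana and Peternell for the pairs which are dominated by a pair with many
commuting self-maps.
-/

set_option autoImplicit false

open FF Pool.Agent.W602.GT Pool.Agent.Y172 Pool.Agent.R887 Pool.Agent.N110

namespace Pool.Agent.Results.MP_370cf3_ag.GrowthRank

/-- The group `ℤ ^ r` acts on `X'` by birational self-maps `f_v`, given by the automorphisms
`φ v = f_v^*` of the function field, which preserve `K_X' + Δ'` (or `Δ' = 0` and `X'` has canonical
singularities), with growth rank at least `s`: the degrees of `f_v` grow subexponentially only along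
linear subspaces of `ℝ ^ r` of codimension at least `s` (for instance `r = s` and
`deg f_v ≥ c exp (δ |v|)`, `c, δ > 0`). -/
def HasBirationalGroup {K' : Type} [Field K'] [Algebra ℂ K'] {N' : ℕ} (y' : Fin (N' + 1) → K')
    (n : ℕ) (Δ' : Place ℂ K' → ℚ) (s : ℕ) : Prop :=
  ∃ (r : ℕ) (φ : (Fin r → ℤ) → (K' ≃ₐ[ℂ] K')), (∀ u v, φ (u + v) = φ u * φ v) ∧
    ((∀ v, PullLe (φ v) y' n Δ') ∨ (Δ' = 0 ∧ Canonical y' n)) ∧
    (GrowthRankGe φ y' n s ∨ (s = r ∧ ExpGrowth φ y' n))

/-- The group `ℤ ^ s` acts on `X'` by birational self-maps `f_v`, isomorphisms in codimension one,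
which preserve `Δ'` and have the first dynamical degree greater than `1` for all `v ≠ 0` (for
instance, automorphisms of positive entropy and `Δ' = 0`). The group of the divisors of `X'` modulo
numerical equivalence is finitely generated, which is the theorem of Néron and Severi. -/
def HasPositiveEntropy {K' : Type} [Field K'] [Algebra ℂ K'] {N' : ℕ} (y' : Fin (N' + 1) → K')
    (n : ℕ) (Δ' : Place ℂ K' → ℚ) (s : ℕ) : Prop :=
  NeronSeveri y' ∧ ∃ φ : (Fin s → ℤ) → (K' ≃ₐ[ℂ] K'), (∀ u v, φ (u + v) = φ u * φ v) ∧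
    (∀ v, PseudoAut (φ v) y') ∧
    (∀ v (P Q : Place ℂ K'), IsPrimeDivisor y' Q → (∀ g, P.ord g = Q.ord (φ v g)) →
      Δ' P = Δ' Q) ∧
    ∀ v, v ≠ 0 → 1 < dynDegree (φ v) y' n 1

/-- The divisor `K_X' + Δ'` is nef, and the semigroup `ℕ ^ r` acts on `X'` by dominant rational
self-maps `f_a`, invertible or not, given by the endomorphisms `φ a = f_a^*` of the function field,
which preserve `K_X' + Δ'` (or `Δ' = 0` and `X'` has canonical singularities), such that the growth
rank of the correspondences `f_a ∘ f_b⁻¹` is at least `s + 1`. -/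
def HasCommutingMaps {K' : Type} [Field K'] [Algebra ℂ K'] {N' : ℕ} (y' : Fin (N' + 1) → K')
    (n : ℕ) (Δ' : Place ℂ K' → ℚ) (s : ℕ) : Prop :=
  LogNef y' n Δ' ∧ ∃ (r : ℕ) (φ : (Fin r → ℕ) → (K' →ₐ[ℂ] K')),
    (∀ u v, φ (u + v) = φ u * φ v) ∧
    ((∀ v, SelfPullLe (φ v) y' n Δ') ∨ (Δ' = 0 ∧ Canonical y' n)) ∧
    (SE.CorrRankGe φ y' n (s + 1) ∨ (s + 1 = r ∧ SE.CorrExpGrowth φ y' n))

/-- **The conjecture of Campana and Peternell for pairs dominated by pairs with many commuting
self-maps.** Let `X` be a normal projective variety of dimension `n ≥ 1` with generic point `y`, `Δ`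
a `ℚ`-divisor on `X` (for instance `X` smooth and `Δ = 0`), and let `(X, Δ)` be dominated by
`(X', Δ')`: there is a dominant generically finite rational map `X' ⇢ X` such that the pull back of
`K_X + Δ` is at most `K_X' + Δ'` over the prime divisors of `X'` (for instance `X' = X`, or `X'` and
`X` smooth, `Δ' = 0`, `Δ = 0` and any map). Let `X'` have an abelian group of birational self-maps
of growth rank at least `s ≥ 1`, or a group `ℤ ^ s` of isomorphisms in codimension one of positive
entropy, or, if `K_X' + Δ'` is nef, a commutative semigroup of dominant rational self-maps of growth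
rank at least `s + 1`. The maps have nothing to do with `X`. Then `s ≤ n - 1`. Let `A` be a
`ℚ`-divisor on `X` such that `K_X + Δ - A` is pseudo-effective, for instance `K_X + Δ ~ A + B` with
`A` effective and `B` pseudo-effective. Then `κ(A) ≤ n - 1 - s`; if `κ(K_X + Δ) ≥ n - 1 - s` then
`κ(K_X + Δ) ≥ κ(A)`; and if `s = n - 1` and the irregularity of `X` is zero then
`κ(K_X + Δ) ≥ κ(A)` in all cases. -/
theorem result {K K' : Type} [Field K] [Algebra ℂ K] [Field K'] [Algebra ℂ K'] {N N' n : ℕ}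
    {y : Fin (N + 1) → K} {y' : Fin (N' + 1) → K'} (hy : NormalModel y) (hy' : NormalModel y')
    (hn : Algebra.trdeg ℂ K = n) (hn' : Algebra.trdeg ℂ K' = n) (hn0 : 0 < n)
    {Δ' : Place ℂ K' → ℚ} (hΔ' : {P | IsPrimeDivisor y' P ∧ Δ' P ≠ 0}.Finite) {s : ℕ}
    (hs : 0 < s) (hS : HasBirationalGroup y' n Δ' s ∨ HasPositiveEntropy y' n Δ' s ∨
      HasCommutingMaps y' n Δ' s)
    {Δ : Place ℂ K → ℚ} (hΔ : {P | IsPrimeDivisor y P ∧ Δ P ≠ 0}.Finite) (π : K →ₐ[ℂ] K')
    (hπ : IM.ImagePullLe π y n Δ y' Δ') :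
    s < n ∧ ∀ A : Place ℂ K → ℚ, PseudoEffective y n (Δ - A) → ∀ l : ℕ, IitakaGe y A l →
      l + s < n ∧ (KappaGe y n Δ (n - 1 - s) → KappaGe y n Δ l) ∧
        (s + 1 = n → IrregularityZero y → KappaGe y n Δ l) := by
  have key : s < n ∧ NumDimLt y' n Δ' (n - s) := by
    rcases hS with ⟨r, φ, hφ, hP, hr⟩ | ⟨hN, φ, hφ, hiso, hφΔ, hent⟩ | ⟨hnef, r, φ, hφ, hP, hr⟩
    · have hr' : GrowthRankGe φ y' n s := by
        rcases hr with h | ⟨rfl, h⟩
        · exact h
        · exact RK.growthRank_of_exp h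
      have hP' : ∀ v, PullLe (φ v) y' n Δ' := by
        rcases hP with h | ⟨rfl, hcan⟩
        · exact h
        · exact fun v => pullLe_canonical hy' hn' hcan (φ v)
      exact RK.rank_main hy' hn' hn0 hΔ' hs hφ hP' hr'
    · have hgr := RK.growthRank_of_exp (PA.growthN hy' hn' hn0 hN hs hφ hiso hent)
      exact RK.rank_main hy' hn' hn0 hΔ' hs hφ
        (fun v => PA.pullLe_pseudoAut (hiso v) fun P Q hQ hP => (hφΔ v P Q hQ hP).le) hgr
    · have hr' : SE.CorrRankGe φ y' n (s + 1) := by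
        rcases hr with h | ⟨rfl, h⟩
        · exact h
        · exact SE.corrRank_of_exp h
      have hP' : ∀ v, SelfPullLe (φ v) y' n Δ' := by
        rcases hP with h | ⟨rfl, hcan⟩
        · exact h
        · exact fun v => selfPullLe_canonical hy' hn' hcan (φ v)
      obtain ⟨h1, h2⟩ := SE.semi_main SE.stmSJ SE.stmSG SE.stmSD hy' hn' hn0 hΔ' hnef
        (Nat.succ_pos s) hφ hP' hr'
      rw [show n - (s + 1) + 1 = n - s by omega] at h2
      exact ⟨h1, h2⟩
  refine ⟨key.1, fun A hA l hl => ?_⟩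
  obtain ⟨h1, h2, h3⟩ := Helper7.CP.cp_of_num hy hn hn0 hΔ (Nat.sub_le n s)
    (IM.numDimLt_img hy hy' hn hn' π hπ (Nat.sub_le n s) key.2) hA hl
  refine ⟨by omega, fun h => h2 ?_, fun h => h3 (by omega)⟩
  rwa [show n - s - 1 = n - 1 - s by omega]

end Pool.Agent.Results.MP_370cf3_ag.GrowthRank
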