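import Pool.Agent.Helper7.CP.Main
import Pool.Graph.R_pool_sql_team_seeded_63374d34.N110.Can

/-!
The conjecture of Campana and Peternell and the largest fibration below the log canonical divisor.

Let `(X, Δ)` be a normal projective variety of dimension `n` with a `ℚ`-divisor such that `K_X + Δ` is
pseudo-effective. We construct the largest fibration `X ⇢ Z` such that the pull back of a big divisor
of `Z` is below `K_X + Δ`, show that the conjecture of Campana and Peternell for `(X, Δ)` and all `A`
is the inequality `κ(K_X + Δ) ≥ dim Z`, that the generic fibre has no divisor of positive Iitaka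
dimension below `K_X + Δ`, and prove the conjecture if `κ = κ_σ = 0` on the generic fibre.

Proof. If `A` and `A'` are below `K_X + Δ` then so is `(A + A') / 2`, and its Iitaka field contains the
Iitaka fields of `A` and `A'`; so there is a largest one, `F`, which contains all others. It is given
by an effective divisor `G` which is a pull back from `Z`. Functions on `Z` with poles along `k G`
vanish to high order along given prime divisors of `X` which do not dominate `Z`; with them sections
on the generic fibre become sections on `X`. If the spaces `V_m` of the sections of `m (K_X + Δ) + H` on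
the generic fibre have bounded dimensions over `F` then they are eventually `s_0 ^ j V`, with a fixed
space `V` and a section `s_0`. A section of `m (K_X + Δ - G) + H` on `X` is `s_0 ^ j ∑ c_i e_i` with
functions `c_i` on `Z`, and the orders of the `c_i` along the vertical prime divisors are at least the
order of the sum minus a constant which does not depend on `m` (Wronskians). So `c_i s_0 ^ j'` is a
section of `m (K_X + Δ) - (m - k) G` after multiplication with a function on `Z` which does not depend
on `m`.
-/

set_option autoImplicit false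

open FF Pool.Agent.W602.GT Pool.Agent.Y172 Pool.Agent.R887 Pool.Agent.N110 Pool.Agent.NH31
open Pool.Agent.Helper7.CP

namespace Pool.Agent.Results.MP_370cf3_ag.LargestFibration

section

variable {K : Type} [Field K] [Algebra ℂ K] {N : ℕ}

/-- `A` is a `ℚ`-divisor: almost all coefficients are zero. -/
def IsDivisor (y : Fin (N + 1) → K) (A : Place ℂ K → ℚ) : Prop :=
  {P | IsPrimeDivisor y P ∧ A P ≠ 0}.Finite

/-- The conjecture of Campana and Peternell for the pair `(X, Δ)` and all `A`: if `K_X + Δ - A` is
pseudo-effective then `κ(K_X + Δ) ≥ κ(A)`. -/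
def CampanaPeternell (y : Fin (N + 1) → K) (n : ℕ) (Δ : Place ℂ K → ℚ) : Prop :=
  ∀ A, IsDivisor y A → PseudoEffective y n (Δ - A) → ∀ l, IitakaGe y A l → KappaGe y n Δ l

/-- `K_X + D` is pseudo-effective in the strong sense of Nakayama: there is an effective divisor `H`
such that `m (K_X + D) + H` has a nonzero section for all `m ≥ 1`. -/
def StronglyPseudoEffective (y : Fin (N + 1) → K) (n : ℕ) (D : Place ℂ K → ℚ) : Prop :=
  ∃ H, Effective y H ∧ ∀ m : ℕ, 1 ≤ m →
    ∃ η : (Fin n → Derivation ℂ K K) → K, IsSection y n m (m • D + H) η ∧ η ≠ 0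

/-- The restriction of `K_X + Δ` to the generic fibre of `X ⇢ Z` has Iitaka dimension and numerical
dimension zero: `m (K_X + Δ)` has a nonzero section on the generic fibre for some `m ≥ 1`, and for
all effective divisors `H` the dimensions over `F`, the function field of `Z`, of the spaces of the
sections of `m (K_X + Δ) + H` on the generic fibre are bounded. -/
def FibresOfDimensionZero (y : Fin (N + 1) → K) (F : IntermediateField ℂ K) (n : ℕ)
    (Δ : Place ℂ K → ℚ) : Prop :=
  (∃ m : ℕ, 1 ≤ m ∧ ∃ ω, FibreSection y F n m (m • Δ) ω ∧ ω ≠ 0) ∧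
    ∀ H, Effective y H → ∃ B : ℕ, ∀ m : ℕ, 1 ≤ m →
      ∀ (s : ℕ) (ω : Fin s → (Fin n → Derivation ℂ K K) → K),
        (∀ i, FibreSection y F n m (m • Δ + H) (ω i)) → LinearIndependent F ω → s ≤ B

/-- The birational self-map `f` of `X`, given by the automorphism `φ = f^*` of the function field,
preserves `K_X + Δ`: either `f^* (K_X + Δ)` is at most `K_X + Δ` over the prime divisors of `X`, or
`Δ = 0` and `X` has canonical singularities (for instance, `X` is smooth). -/
def Preserves (φ : K ≃ₐ[ℂ] K) (y : Fin (N + 1) → K) (n : ℕ) (Δ : Place ℂ K → ℚ) : Prop :=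
  PullLe φ y n Δ ∨ (Δ = 0 ∧ Canonical y n)

/-- `X ⇢ Z`, `F` being the function field of `Z`, of dimension `t`, is the largest fibration below
`K_X + Δ`: the field `F` is algebraically closed in the function field `K` of `X`; there is an
effective divisor `G` on `X`, which contains no prime divisor which dominates `Z`, with `κ(G) = t`
and `K_X + Δ - G` pseudo-effective; and if `K_X + Δ + k G - A` is pseudo-effective then the quotients
of two sections of `m A` on the generic fibre are functions on `Z`, and the same is true for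
`m (K_X + Δ)`. -/
structure IsLargest (y : Fin (N + 1) → K) (n : ℕ) (Δ : Place ℂ K → ℚ) (F : IntermediateField ℂ K)
    (t : ℕ) (G : Place ℂ K → ℚ) : Prop where
  closed : ∀ x : K, IsAlgebraic F x → x ∈ F
  dim : Algebra.trdeg ℂ F = t
  effective : Effective y G
  vertical : ∀ P, Horizontal F P → G P = 0
  below : PseudoEffective y n (Δ - G)
  iitaka : IitakaGe y G t
  largest : ∀ (k : ℕ) (A : Place ℂ K → ℚ), IsDivisor y A → PseudoEffective y n (Δ + k • G - A) →
    ∀ m : ℕ, 1 ≤ m → ∀ f g, FibreFunction y F (m • A) f → FibreFunction y F (m • A) g → g ≠ 0 →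
      f / g ∈ F
  fibre : ∀ m : ℕ, 1 ≤ m → ∀ ω η, FibreSection y F n m (m • Δ) ω →
    FibreSection y F n m (m • Δ) η → ∀ E, η E ≠ 0 → ω E / η E ∈ F

end

/-- **The largest fibration.** Let `X` be a normal projective variety of dimension `n` with generic
point `y` and `Δ` a `ℚ`-divisor on `X` such that `K_X + Δ` is pseudo-effective. There is a largest
fibration `X ⇢ Z` below `K_X + Δ`; let `t = dim Z`. If `K_X + Δ - A` is pseudo-effective then
`κ(A) ≤ t`, and `κ(K_X + Δ) ≤ t`. The conjecture of Campana and Peternell is true for `(X, Δ)` and all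
`A` if and only if `κ(K_X + Δ) ≥ t`. It is true if `t = n`, and if the restriction of `K_X + Δ` to the
generic fibre has Iitaka dimension and numerical dimension zero and there is a divisor `A` with
`κ(A) ≥ t` such that `K_X + Δ - A` is pseudo-effective in the strong sense. The birational self-maps
of `X` which preserve `K_X + Δ` preserve the fibration; so if a set `S` of such maps preserves no
fibration with `0 < dim Z < n`, and there is `A` with `κ(A) ≥ 1` such that `K_X + Δ - A` is
pseudo-effective, then `K_X + Δ` is big. -/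
theorem result {K : Type} [Field K] [Algebra ℂ K] {N n : ℕ} {y : Fin (N + 1) → K}
    (hy : NormalModel y) (hn : Algebra.trdeg ℂ K = n) {Δ : Place ℂ K → ℚ} (hΔ : IsDivisor y Δ)
    (hps : PseudoEffective y n Δ) :
    ∃ (F : IntermediateField ℂ K) (t : ℕ) (G : Place ℂ K → ℚ), t ≤ n ∧ IsLargest y n Δ F t G ∧
      (∀ A, IsDivisor y A → PseudoEffective y n (Δ - A) → ∀ l, IitakaGe y A l → l ≤ t) ∧
      (∀ l, KappaGe y n Δ l → l ≤ t) ∧
      (CampanaPeternell y n Δ ↔ KappaGe y n Δ t) ∧
      (t = n → CampanaPeternell y n Δ) ∧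
      (FibresOfDimensionZero y F n Δ → ∀ A, IsDivisor y A → IitakaGe y A t →
        StronglyPseudoEffective y n (Δ - A) → CampanaPeternell y n Δ) ∧
      (∀ φ : K ≃ₐ[ℂ] K, Preserves φ y n Δ → ∀ x ∈ F, φ x ∈ F) ∧
      ∀ S : Set (K ≃ₐ[ℂ] K), (∀ φ ∈ S, Preserves φ y n Δ) →
        (∀ F' : IntermediateField ℂ K, (∀ x : K, IsAlgebraic F' x → x ∈ F') →
          (∀ φ ∈ S, ∀ x ∈ F', φ x ∈ F') → Algebra.trdeg ℂ F' = 0 ∨ Algebra.trdeg ℂ F' = n) →
        ∀ A, IsDivisor y A → PseudoEffective y n (Δ - A) → IitakaGe y A 1 → KappaGe y n Δ n := by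
  classical
  have hess := hy.ess
  obtain ⟨x, E, hx, hE⟩ := exists_crd hn (k := ℂ) (K := K)
  have hfr : IsFrame E := fun F => ⟨fun j => F (x j),
    (Pool.Agent.W73.PG.PULL.expand x hx E hE F).symm⟩
  obtain ⟨c, hcf, hc0⟩ := exists_ordc hy hn hx hE
  have hc : IsDisc y E c := hc0
  obtain ⟨D, hD⟩ : ∃ D : Place ℂ K → ℚ, D = fun P => (c P : ℚ) + Δ P := ⟨_, rfl⟩
  have hDs : FinSup y D := by
    refine (Set.Finite.union hcf hΔ).subset ?_
    rintro P ⟨hP, hne⟩
    by_contra hcon
    rw [Set.mem_union] at hcon
    push Not at hcon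
    have e1 : c P = 0 := by
      by_contra h1
      exact hcon.1 ⟨hP, h1⟩
    have e2 : Δ P = 0 := by
      by_contra h1
      exact hcon.2 ⟨hP, h1⟩
    exact hne (by rw [hD]; simp [e1, e2])
  have hpsD : PsD y D := by
    rw [hD]
    exact (psef_iff hE hfr hc).1 hps
  -- translations
  have hsub : ∀ (k : ℕ) (G A : Place ℂ K → ℚ), PseudoEffective y n (Δ + k • G - A) →
      PsD y (D + k • G - A) := by
    intro k G A h
    refine ((psef_iff hE hfr hc).1 h).mono fun P _ => ?_
    rw [hD]
    simp only [Pi.add_apply, Pi.sub_apply]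
    linarith
  have hsub0 : ∀ A : Place ℂ K → ℚ, PseudoEffective y n (Δ - A) → PsD y (D - A) := by
    intro A h
    refine ((psef_iff hE hfr hc).1 h).mono fun P _ => ?_
    rw [hD]
    simp only [Pi.sub_apply]
    linarith
  have hsub0' : ∀ A : Place ℂ K → ℚ, PsD y (D - A) → PseudoEffective y n (Δ - A) := by
    intro A h
    refine (psef_iff hE hfr hc).2 (h.mono fun P _ => ?_)
    rw [hD]
    simp only [Pi.sub_apply]
    linarith
  have hkap : ∀ l, KappaGe y n Δ l ↔ IitakaGe y D l := by
    intro l
    rw [hD]
    exact kappaGe_iff hE hfr hc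
  have hfs : ∀ (F : IntermediateField ℂ K) (m : ℕ) (H : Place ℂ K → ℚ)
      (ω : (Fin n → Derivation ℂ K K) → K), IsPluri m ω →
      (FibreSection y F n m (m • Δ + H) ω ↔ Hor y F (m • D + H) (ω E)) := by
    intro F m H ω hω
    rw [fibreSection_iff hc hω]
    have e1 : (fun P => (m : ℚ) * c P + (m • Δ + H) P) = m • D + H := by
      funext P
      rw [hD]
      simp only [Pi.add_apply, smul_ap]
      ring
    rw [e1]
  have hfs0 : ∀ (F : IntermediateField ℂ K) (m : ℕ)
      (ω : (Fin n → Derivation ℂ K K) → K), IsPluri m ω →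
      (FibreSection y F n m (m • Δ) ω ↔ Hor y F (m • D) (ω E)) := by
    intro F m ω hω
    have h1 := hfs F m 0 ω hω
    rwa [add_zero, add_zero] at h1
  obtain ⟨t, F, G, m, u, htn, hb⟩ := exists_base hy hn hpsD
  have htr : Algebra.trdeg ℂ F = t := trdeg_base hb.ind hb.fld
  have hle : ∀ A, IsDivisor y A → PseudoEffective y n (Δ - A) → ∀ l, IitakaGe y A l → l ≤ t :=
    fun A hA h l hl => hb.le hA (hsub0 A h) hl
  have hfib : ∀ m : ℕ, 1 ≤ m → ∀ ω η, FibreSection y F n m (m • Δ) ω →
      FibreSection y F n m (m • Δ) η → ∀ E', η E' ≠ 0 → ω E' / η E' ∈ F := by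
    intro m hm ω η hω hη E' hE'
    have h1 := (R887.ratio_frame (E := E) hfr hη.1 hω.1 hE')
    have hηE : η E ≠ 0 := h1.1
    rw [h1.2]
    by_cases h2 : ω E = 0
    · rw [h2, zero_div]
      exact F.zero_mem
    · have h3 := (hfs0 F m ω hω.1).1 hω
      have h4 := (hfs0 F m η hη.1).1 hη
      have h5 := fibre_le' hy hDs hb hm (f := ![η E, ω E]) (by
        intro i
        fin_cases i
        · exact hηE
        · exact h2) (by
        intro i P hP hh
        fin_cases i
        · have := (h4 P hP hh).resolve_left hηE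
          rwa [smul_ap] at this
        · have := (h3 P hP hh).resolve_left h2
          rwa [smul_ap] at this)
      exact h5
  have hL : IsLargest y n Δ F t G := by
    refine ⟨fun x hx => hb.closed hx, htr, hb.eff, hb.hor, hsub0' G hb.psd, hb.iitaka, ?_, hfib⟩
    intro k A hA hkA m1 hm1 f g hf hg hg0
    by_cases hf0 : f = 0
    · rw [hf0, zero_div]
      exact F.zero_mem
    · have h5 := fibre_le hy hA hb (hsub k G A hkA) hm1 (f := ![g, f]) (by
        intro i
        fin_cases i
        · exact hg0
        · exact hf0) (by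
        intro i P hP hh
        fin_cases i
        · have := (fibreFunction_iff hg P hP hh).resolve_left hg0
          rwa [smul_ap] at this
        · have := (fibreFunction_iff hf P hP hh).resolve_left hf0
          rwa [smul_ap] at this)
      exact h5
  have hcp : CampanaPeternell y n Δ ↔ KappaGe y n Δ t := by
    constructor
    · intro h
      exact h G hb.eff.2 hL.below t hL.iitaka
    · intro h A hA hA' l hl
      exact kappaGe_mono h (hle A hA hA' l hl)
  have htop : t = n → KappaGe y n Δ n := by
    rintro rfl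
    exact (hkap t).2 (big_of_top hn hb)
  have hinv : ∀ φ : K ≃ₐ[ℂ] K, Preserves φ y n Δ → ∀ x ∈ F, φ x ∈ F := by
    intro φ hφ0
    have hφ : PullLe φ y n Δ := by
      rcases hφ0 with h | ⟨rfl, hcan⟩
      · exact h
      · exact pullLe_canonical hy hn hcan φ
    have h1 := pres_of_pullLe hy hφ hE hfr hc
    rw [← hD] at h1
    exact inv_field hy hb h1
  refine ⟨F, t, G, htn, hL, hle, ?_, hcp, ?_, ?_, hinv, ?_⟩
  · rintro l ⟨m1, hm1, ω, E', hω, h0, hind⟩
    refine card_le_base htr hind fun i => ?_
    exact hfib m1 hm1 (ω i.succ) (ω 0) ⟨(hω _).1, fun P hP _ => (hω _).2 P hP⟩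
      ⟨(hω 0).1, fun P hP _ => (hω 0).2 P hP⟩ E' h0
  · intro h
    refine hcp.2 ?_
    rw [h]
    exact htop h
  · rintro ⟨⟨m1, hm1, ω, hω, hω0⟩, hbd⟩ A hA hI ⟨H, hH, hstr⟩
    refine hcp.2 ((hkap t).2 (kappa_strong hy hn hb hA hI hH (fun m2 hm2 => ?_) hm1
      (s0 := ω E) (fun h0 => hω0 (pluri_zero hfr hω.1 h0)) ((hfs0 F m1 ω hω.1).1 hω)
      fun H' hH' => ?_))
    · obtain ⟨η, hη, hη0⟩ := hstr m2 hm2
      refine ⟨η E, fun h0 => hη0 (pluri_zero hfr hη.1 h0), fun P hP => ?_⟩
      have h1 := (isSection_iff hc hη.1).1 hη P hP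
      refine h1.imp_right fun h2 => ?_
      rw [hD]
      simp only [Pi.add_apply, Pi.sub_apply, smul_ap] at h2 ⊢
      linarith
    · obtain ⟨B, hB⟩ := hbd H' hH'
      refine ⟨B, fun m2 hm2 s e he hes => ?_⟩
      refine hB m2 hm2 s (fun i => frm x m2 (e i)) (fun i => ?_) ?_
      · rw [hfs F m2 H' _ (frm_pluri x m2 _), frm_self hE]
        exact hes i
      · refine LinearIndependent.of_comp
          (LinearMap.proj E : ((Fin n → Derivation ℂ K K) → K) →ₗ[F] K) ?_
        have e1 : ((LinearMap.proj E : ((Fin n → Derivation ℂ K K) → K) →ₗ[F] K) ∘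
            fun i => frm x m2 (e i)) = e := by
          funext i
          exact frm_self hE m2 (e i)
        rw [e1]
        exact he
  · intro S hS hprim A hA hA' hI
    have h1 : 1 ≤ t := hle A hA hA' 1 hI
    apply htop
    rcases hprim F (fun x hx => hb.closed hx) (fun φ hφ => hinv φ (hS φ hφ)) with h2 | h2
    · rw [htr] at h2
      have : t = 0 := by exact_mod_cast h2
      omega
    · rw [htr] at h2
      exact_mod_cast h2

end Pool.Agent.Results.MP_370cf3_ag.LargestFibration
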